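import Pool.Agent.Strip051.Box.C2
import Pool.Agent.Strip051.Box.S30
import Pool.Agent.Strip051.LB.Fc.F2

/-! # LINE tight chart ChB03V1_mm_213 -/

namespace Pool.Agent.Strip051.LB.ChB03V1_mm_213

open Pool.Agent.Strip051.Box Pool.Agent.Strip051.Box2

open Pool.Agent.Strip051.LB.Fc Pool.Agent.Strip051.LB.Fc.F2 Pool.Agent.Strip051.LB.Fn Pool.Agent.Strip051.LB.Fn.F2

/-- coordinates of a point of the box -/
def In (b : Bx) (E : Pt) (x1 x2 : ℝ) : Prop :=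
  (S : ℝ) * x1 = ((b.p1 : ℝ) - b.n1) + b.q1 * E.e1 ∧ (S : ℝ) * x2 = ((b.p2 : ℝ) - b.n2) + b.q2 * E.e2

variable {b : Bx} {E : Pt} {x1 x2 : ℝ}

def t0 (b : Bx) : TM := X1 b
noncomputable def v0 (x1 _x2 : ℝ) : ℝ := x1
theorem h0 (h : In b E x1 x2) : Enc S E (t0 b) (v0 x1 x2) := enc_X1 h.1

def t1 (b : Bx) : TM := X2 b
noncomputable def v1 (_x1 x2 : ℝ) : ℝ := x2
theorem h1 (h : In b E x1 x2) : Enc S E (t1 b) (v1 x1 x2) := enc_X2 h.2

def t2 (_b : Bx) : TM := tconst 1859775393 0 1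
noncomputable def v2 (_x1 _x2 : ℝ) : ℝ := Real.sqrt ((3 : ℕ) : ℝ)
theorem h2 (_h : In b E x1 x2) : Enc S E (t2 b) (v2 x1 x2) := enc_sqrtn E (by decide) (by decide)

def t3 (b : Bx) : TM := tscale 1 2 (t2 b)
noncomputable def v3 (x1 x2 : ℝ) : ℝ := ((1 : ℕ) : ℝ) / ((2 : ℕ) : ℝ) * v2 x1 x2
theorem h3 (h : In b E x1 x2) : Enc S E (t3 b) (v3 x1 x2) := enc_scale 1 (by norm_num) (h2 h)

def t4 (b : Bx) : TM := tsq S (t0 b)
noncomputable def v4 (x1 x2 : ℝ) : ℝ := (v0 x1 x2) ^ 2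
theorem h4 (h : In b E x1 x2) : Enc S E (t4 b) (v4 x1 x2) := enc_sq hS (h0 h)

def t5 (_b : Bx) : TM := tconst (Nat.mul 1 S) 0 0
noncomputable def v5 (_x1 _x2 : ℝ) : ℝ := ((1 : ℕ) : ℝ)
theorem h5 (_h : In b E x1 x2) : Enc S E (t5 b) (v5 x1 x2) := enc_nc E 1

def t6 (b : Bx) : TM := tsub (t5 b) (t4 b)
noncomputable def v6 (x1 x2 : ℝ) : ℝ := v5 x1 x2 - v4 x1 x2
theorem h6 (h : In b E x1 x2) : Enc S E (t6 b) (v6 x1 x2) := enc_sub (h5 h) (h4 h)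

def t7 (b : Bx) : TM := tsqrt S (t6 b)
noncomputable def v7 (x1 x2 : ℝ) : ℝ := Real.sqrt (v6 x1 x2)
theorem h7 (h : In b E x1 x2) : Enc S E (t7 b) (v7 x1 x2) := enc_sqrt hS (h6 h)

def t9 (_b : Bx) : TM := tconst (Nat.div (Nat.mul 1 S) 2) 0 1
noncomputable def v9 (_x1 _x2 : ℝ) : ℝ := ((1 : ℕ) : ℝ) / ((2 : ℕ) : ℝ)
theorem h9 (_h : In b E x1 x2) : Enc S E (t9 b) (v9 x1 x2) := enc_rat E 1 (by norm_num)

def t10 (b : Bx) : TM := tscale 1 2 (t0 b)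
noncomputable def v10 (x1 x2 : ℝ) : ℝ := ((1 : ℕ) : ℝ) / ((2 : ℕ) : ℝ) * v0 x1 x2
theorem h10 (h : In b E x1 x2) : Enc S E (t10 b) (v10 x1 x2) := enc_scale 1 (by norm_num) (h0 h)

def t11 (b : Bx) : TM := tmul S (t7 b) (t3 b)
noncomputable def v11 (x1 x2 : ℝ) : ℝ := v7 x1 x2 * v3 x1 x2
theorem h11 (h : In b E x1 x2) : Enc S E (t11 b) (v11 x1 x2) := enc_mul hS (h7 h) (h3 h)

def t13 (b : Bx) : TM := tscale 1 2 (t7 b)
noncomputable def v13 (x1 x2 : ℝ) : ℝ := ((1 : ℕ) : ℝ) / ((2 : ℕ) : ℝ) * v7 x1 x2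
theorem h13 (h : In b E x1 x2) : Enc S E (t13 b) (v13 x1 x2) := enc_scale 1 (by norm_num) (h7 h)

def t14 (b : Bx) : TM := tmul S (t0 b) (t3 b)
noncomputable def v14 (x1 x2 : ℝ) : ℝ := v0 x1 x2 * v3 x1 x2
theorem h14 (h : In b E x1 x2) : Enc S E (t14 b) (v14 x1 x2) := enc_mul hS (h0 h) (h3 h)

def t16 (b : Bx) : TM := tsub (t14 b) (t13 b)
noncomputable def v16 (x1 x2 : ℝ) : ℝ := v14 x1 x2 - v13 x1 x2
theorem h16 (h : In b E x1 x2) : Enc S E (t16 b) (v16 x1 x2) := enc_sub (h14 h) (h13 h)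

def t17 (b : Bx) : TM := tadd (t11 b) (t10 b)
noncomputable def v17 (x1 x2 : ℝ) : ℝ := v11 x1 x2 + v10 x1 x2
theorem h17 (h : In b E x1 x2) : Enc S E (t17 b) (v17 x1 x2) := enc_add (h11 h) (h10 h)

def t18 (b : Bx) : TM := tmul S (t16 b) (t2 b)
noncomputable def v18 (x1 x2 : ℝ) : ℝ := v16 x1 x2 * v2 x1 x2
theorem h18 (h : In b E x1 x2) : Enc S E (t18 b) (v18 x1 x2) := enc_mul hS (h16 h) (h2 h)

def t19 (b : Bx) : TM := tmul S (t17 b) (t2 b)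
noncomputable def v19 (x1 x2 : ℝ) : ℝ := v17 x1 x2 * v2 x1 x2
theorem h19 (h : In b E x1 x2) : Enc S E (t19 b) (v19 x1 x2) := enc_mul hS (h17 h) (h2 h)

def t20 (b : Bx) : TM := tsub (t1 b) (t18 b)
noncomputable def v20 (x1 x2 : ℝ) : ℝ := v1 x1 x2 - v18 x1 x2
theorem h20 (h : In b E x1 x2) : Enc S E (t20 b) (v20 x1 x2) := enc_sub (h1 h) (h18 h)

def t21 (b : Bx) : TM := tsq S (t1 b)
noncomputable def v21 (x1 x2 : ℝ) : ℝ := (v1 x1 x2) ^ 2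
theorem h21 (h : In b E x1 x2) : Enc S E (t21 b) (v21 x1 x2) := enc_sq hS (h1 h)

def t22 (_b : Bx) : TM := tconst (Nat.mul 3 S) 0 0
noncomputable def v22 (_x1 _x2 : ℝ) : ℝ := ((3 : ℕ) : ℝ)
theorem h22 (_h : In b E x1 x2) : Enc S E (t22 b) (v22 x1 x2) := enc_nc E 3

def t23 (b : Bx) : TM := tsub (t22 b) (t21 b)
noncomputable def v23 (x1 x2 : ℝ) : ℝ := v22 x1 x2 - v21 x1 x2
theorem h23 (h : In b E x1 x2) : Enc S E (t23 b) (v23 x1 x2) := enc_sub (h22 h) (h21 h)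

def t24 (b : Bx) : TM := tsqrt S (t23 b)
noncomputable def v24 (x1 x2 : ℝ) : ℝ := Real.sqrt (v23 x1 x2)
theorem h24 (h : In b E x1 x2) : Enc S E (t24 b) (v24 x1 x2) := enc_sqrt hS (h23 h)

def t25 (b : Bx) : TM := tsub (t1 b) (t0 b)
noncomputable def v25 (x1 x2 : ℝ) : ℝ := v1 x1 x2 - v0 x1 x2
theorem h25 (h : In b E x1 x2) : Enc S E (t25 b) (v25 x1 x2) := enc_sub (h1 h) (h0 h)

def t26 (b : Bx) : TM := tsub (t24 b) (t7 b)
noncomputable def v26 (x1 x2 : ℝ) : ℝ := v24 x1 x2 - v7 x1 x2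
theorem h26 (h : In b E x1 x2) : Enc S E (t26 b) (v26 x1 x2) := enc_sub (h24 h) (h7 h)

def t27 (b : Bx) : TM := tsub (t18 b) (t1 b)
noncomputable def v27 (x1 x2 : ℝ) : ℝ := v18 x1 x2 - v1 x1 x2
theorem h27 (h : In b E x1 x2) : Enc S E (t27 b) (v27 x1 x2) := enc_sub (h18 h) (h1 h)

def t33 (b : Bx) : TM := tsub (t22 b) (t1 b)
noncomputable def v33 (x1 x2 : ℝ) : ℝ := v22 x1 x2 - v1 x1 x2
theorem h33 (h : In b E x1 x2) : Enc S E (t33 b) (v33 x1 x2) := enc_sub (h22 h) (h1 h)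

def t34 (b : Bx) : TM := tmul S (t2 b) (t24 b)
noncomputable def v34 (x1 x2 : ℝ) : ℝ := v2 x1 x2 * v24 x1 x2
theorem h34 (h : In b E x1 x2) : Enc S E (t34 b) (v34 x1 x2) := enc_mul hS (h2 h) (h24 h)

def t35 (b : Bx) : TM := tsub (t33 b) (t34 b)
noncomputable def v35 (x1 x2 : ℝ) : ℝ := v33 x1 x2 - v34 x1 x2
theorem h35 (h : In b E x1 x2) : Enc S E (t35 b) (v35 x1 x2) := enc_sub (h33 h) (h34 h)

def t37 (b : Bx) : TM := tsub (t24 b) (t3 b)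
noncomputable def v37 (x1 x2 : ℝ) : ℝ := v24 x1 x2 - v3 x1 x2
theorem h37 (h : In b E x1 x2) : Enc S E (t37 b) (v37 x1 x2) := enc_sub (h24 h) (h3 h)

def t38 (b : Bx) : TM := tnat 4 (t37 b)
noncomputable def v38 (x1 x2 : ℝ) : ℝ := ((4 : ℕ) : ℝ) * v37 x1 x2
theorem h38 (h : In b E x1 x2) : Enc S E (t38 b) (v38 x1 x2) := enc_nat 4 (h37 h)

def t39 (b : Bx) : TM := tinv S (t38 b)
noncomputable def v39 (x1 x2 : ℝ) : ℝ := (v38 x1 x2)⁻¹
theorem h39 (h : In b E x1 x2) : Enc S E (t39 b) (v39 x1 x2) := enc_inv hS (h38 h)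

def t42 (b : Bx) : TM := tsq S (t25 b)
noncomputable def v42 (x1 x2 : ℝ) : ℝ := (v25 x1 x2) ^ 2
theorem h42 (h : In b E x1 x2) : Enc S E (t42 b) (v42 x1 x2) := enc_sq hS (h25 h)

def t43 (b : Bx) : TM := tsq S (t26 b)
noncomputable def v43 (x1 x2 : ℝ) : ℝ := (v26 x1 x2) ^ 2
theorem h43 (h : In b E x1 x2) : Enc S E (t43 b) (v43 x1 x2) := enc_sq hS (h26 h)

def t44 (b : Bx) : TM := tadd (t42 b) (t43 b)
noncomputable def v44 (x1 x2 : ℝ) : ℝ := v42 x1 x2 + v43 x1 x2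
theorem h44 (h : In b E x1 x2) : Enc S E (t44 b) (v44 x1 x2) := enc_add (h42 h) (h43 h)

def t48 (b : Bx) : TM := tsub (t18 b) (t0 b)
noncomputable def v48 (x1 x2 : ℝ) : ℝ := v18 x1 x2 - v0 x1 x2
theorem h48 (h : In b E x1 x2) : Enc S E (t48 b) (v48 x1 x2) := enc_sub (h18 h) (h0 h)

def t50 (b : Bx) : TM := tadd (t25 b) (t48 b)
noncomputable def v50 (x1 x2 : ℝ) : ℝ := v25 x1 x2 + v48 x1 x2
theorem h50 (h : In b E x1 x2) : Enc S E (t50 b) (v50 x1 x2) := enc_add (h25 h) (h48 h)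

def t53 (b : Bx) : TM := tadd (t1 b) (t18 b)
noncomputable def v53 (x1 x2 : ℝ) : ℝ := v1 x1 x2 + v18 x1 x2
theorem h53 (h : In b E x1 x2) : Enc S E (t53 b) (v53 x1 x2) := enc_add (h1 h) (h18 h)

def t56 (b : Bx) : TM := tadd (t24 b) (t19 b)
noncomputable def v56 (x1 x2 : ℝ) : ℝ := v24 x1 x2 + v19 x1 x2
theorem h56 (h : In b E x1 x2) : Enc S E (t56 b) (v56 x1 x2) := enc_add (h24 h) (h19 h)

def t57 (b : Bx) : TM := tinv S (t56 b)
noncomputable def v57 (x1 x2 : ℝ) : ℝ := (v56 x1 x2)⁻¹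
theorem h57 (h : In b E x1 x2) : Enc S E (t57 b) (v57 x1 x2) := enc_inv hS (h56 h)

def t58 (b : Bx) : TM := tmul S (t53 b) (t57 b)
noncomputable def v58 (x1 x2 : ℝ) : ℝ := v53 x1 x2 * v57 x1 x2
theorem h58 (h : In b E x1 x2) : Enc S E (t58 b) (v58 x1 x2) := enc_mul hS (h53 h) (h57 h)

def t59 (b : Bx) : TM := tsub (t19 b) (t7 b)
noncomputable def v59 (x1 x2 : ℝ) : ℝ := v19 x1 x2 - v7 x1 x2
theorem h59 (h : In b E x1 x2) : Enc S E (t59 b) (v59 x1 x2) := enc_sub (h19 h) (h7 h)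

def t61 (b : Bx) : TM := tadd (t26 b) (t59 b)
noncomputable def v61 (x1 x2 : ℝ) : ℝ := v26 x1 x2 + v59 x1 x2
theorem h61 (h : In b E x1 x2) : Enc S E (t61 b) (v61 x1 x2) := enc_add (h26 h) (h59 h)

def t62 (b : Bx) : TM := tmul S (t58 b) (t61 b)
noncomputable def v62 (x1 x2 : ℝ) : ℝ := v58 x1 x2 * v61 x1 x2
theorem h62 (h : In b E x1 x2) : Enc S E (t62 b) (v62 x1 x2) := enc_mul hS (h58 h) (h61 h)

def t64 (b : Bx) : TM := tsub (t62 b) (t50 b)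
noncomputable def v64 (x1 x2 : ℝ) : ℝ := v62 x1 x2 - v50 x1 x2
theorem h64 (h : In b E x1 x2) : Enc S E (t64 b) (v64 x1 x2) := enc_sub (h62 h) (h50 h)

def t66 (b : Bx) : TM := tsub (t0 b) (t1 b)
noncomputable def v66 (x1 x2 : ℝ) : ℝ := v0 x1 x2 - v1 x1 x2
theorem h66 (h : In b E x1 x2) : Enc S E (t66 b) (v66 x1 x2) := enc_sub (h0 h) (h1 h)

def t67 (b : Bx) : TM := tsub (t5 b) (t43 b)
noncomputable def v67 (x1 x2 : ℝ) : ℝ := v5 x1 x2 - v43 x1 x2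
theorem h67 (h : In b E x1 x2) : Enc S E (t67 b) (v67 x1 x2) := enc_sub (h5 h) (h43 h)

def t68 (b : Bx) : TM := tsqrt S (t67 b)
noncomputable def v68 (x1 x2 : ℝ) : ℝ := Real.sqrt (v67 x1 x2)
theorem h68 (h : In b E x1 x2) : Enc S E (t68 b) (v68 x1 x2) := enc_sqrt hS (h67 h)

def t69 (b : Bx) : TM := tsub (t11 b) (t10 b)
noncomputable def v69 (x1 x2 : ℝ) : ℝ := v11 x1 x2 - v10 x1 x2
theorem h69 (h : In b E x1 x2) : Enc S E (t69 b) (v69 x1 x2) := enc_sub (h11 h) (h10 h)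

def t72 (b : Bx) : TM := tmul S (t2 b) (t26 b)
noncomputable def v72 (x1 x2 : ℝ) : ℝ := v2 x1 x2 * v26 x1 x2
theorem h72 (h : In b E x1 x2) : Enc S E (t72 b) (v72 x1 x2) := enc_mul hS (h2 h) (h26 h)

def t73 (b : Bx) : TM := tsub (t72 b) (t68 b)
noncomputable def v73 (x1 x2 : ℝ) : ℝ := v72 x1 x2 - v68 x1 x2
theorem h73 (h : In b E x1 x2) : Enc S E (t73 b) (v73 x1 x2) := enc_sub (h72 h) (h68 h)

def t75 (b : Bx) : TM := tadd (t5 b) (t72 b)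
noncomputable def v75 (x1 x2 : ℝ) : ℝ := v5 x1 x2 + v72 x1 x2
theorem h75 (h : In b E x1 x2) : Enc S E (t75 b) (v75 x1 x2) := enc_add (h5 h) (h72 h)

def t76 (b : Bx) : TM := tsub (t75 b) (t68 b)
noncomputable def v76 (x1 x2 : ℝ) : ℝ := v75 x1 x2 - v68 x1 x2
theorem h76 (h : In b E x1 x2) : Enc S E (t76 b) (v76 x1 x2) := enc_sub (h75 h) (h68 h)

def t77 (b : Bx) : TM := tnat 2 (t76 b)
noncomputable def v77 (x1 x2 : ℝ) : ℝ := ((2 : ℕ) : ℝ) * v76 x1 x2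
theorem h77 (h : In b E x1 x2) : Enc S E (t77 b) (v77 x1 x2) := enc_nat 2 (h76 h)

def t78 (b : Bx) : TM := tinv S (t77 b)
noncomputable def v78 (x1 x2 : ℝ) : ℝ := (v77 x1 x2)⁻¹
theorem h78 (h : In b E x1 x2) : Enc S E (t78 b) (v78 x1 x2) := enc_inv hS (h77 h)

def t82 (b : Bx) : TM := tadd (t68 b) (t69 b)
noncomputable def v82 (x1 x2 : ℝ) : ℝ := v68 x1 x2 + v69 x1 x2
theorem h82 (h : In b E x1 x2) : Enc S E (t82 b) (v82 x1 x2) := enc_add (h68 h) (h69 h)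

def t83 (b : Bx) : TM := tinv S (t82 b)
noncomputable def v83 (x1 x2 : ℝ) : ℝ := (v82 x1 x2)⁻¹
theorem h83 (h : In b E x1 x2) : Enc S E (t83 b) (v83 x1 x2) := enc_inv hS (h82 h)

def t84 (b : Bx) : TM := tmul S (t62 b) (t83 b)
noncomputable def v84 (x1 x2 : ℝ) : ℝ := v62 x1 x2 * v83 x1 x2
theorem h84 (h : In b E x1 x2) : Enc S E (t84 b) (v84 x1 x2) := enc_mul hS (h62 h) (h83 h)

def t86 (b : Bx) : TM := tnat 2 (t69 b)
noncomputable def v86 (x1 x2 : ℝ) : ℝ := ((2 : ℕ) : ℝ) * v69 x1 x2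
theorem h86 (h : In b E x1 x2) : Enc S E (t86 b) (v86 x1 x2) := enc_nat 2 (h69 h)

def t87 (b : Bx) : TM := tnat 2 (t84 b)
noncomputable def v87 (x1 x2 : ℝ) : ℝ := ((2 : ℕ) : ℝ) * v84 x1 x2
theorem h87 (h : In b E x1 x2) : Enc S E (t87 b) (v87 x1 x2) := enc_nat 2 (h84 h)

def t89 (b : Bx) : TM := tadd (t5 b) (t86 b)
noncomputable def v89 (x1 x2 : ℝ) : ℝ := v5 x1 x2 + v86 x1 x2
theorem h89 (h : In b E x1 x2) : Enc S E (t89 b) (v89 x1 x2) := enc_add (h5 h) (h86 h)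

def t90 (b : Bx) : TM := tmul S (t2 b) (t59 b)
noncomputable def v90 (x1 x2 : ℝ) : ℝ := v2 x1 x2 * v59 x1 x2
theorem h90 (h : In b E x1 x2) : Enc S E (t90 b) (v90 x1 x2) := enc_mul hS (h2 h) (h59 h)

def t91 (b : Bx) : TM := tmul S (t2 b) (t58 b)
noncomputable def v91 (x1 x2 : ℝ) : ℝ := v2 x1 x2 * v58 x1 x2
theorem h91 (h : In b E x1 x2) : Enc S E (t91 b) (v91 x1 x2) := enc_mul hS (h2 h) (h58 h)

def t92 (b : Bx) : TM := tsub (t90 b) (t69 b)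
noncomputable def v92 (x1 x2 : ℝ) : ℝ := v90 x1 x2 - v69 x1 x2
theorem h92 (h : In b E x1 x2) : Enc S E (t92 b) (v92 x1 x2) := enc_sub (h90 h) (h69 h)

def t93 (b : Bx) : TM := tadd (t91 b) (t84 b)
noncomputable def v93 (x1 x2 : ℝ) : ℝ := v91 x1 x2 + v84 x1 x2
theorem h93 (h : In b E x1 x2) : Enc S E (t93 b) (v93 x1 x2) := enc_add (h91 h) (h84 h)

def t94 (b : Bx) : TM := tmul S (t89 b) (t92 b)
noncomputable def v94 (x1 x2 : ℝ) : ℝ := v89 x1 x2 * v92 x1 x2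
theorem h94 (h : In b E x1 x2) : Enc S E (t94 b) (v94 x1 x2) := enc_mul hS (h89 h) (h92 h)

def t95 (b : Bx) : TM := tmul S (t87 b) (t73 b)
noncomputable def v95 (x1 x2 : ℝ) : ℝ := v87 x1 x2 * v73 x1 x2
theorem h95 (h : In b E x1 x2) : Enc S E (t95 b) (v95 x1 x2) := enc_mul hS (h87 h) (h73 h)

def t97 (b : Bx) : TM := tmul S (t89 b) (t93 b)
noncomputable def v97 (x1 x2 : ℝ) : ℝ := v89 x1 x2 * v93 x1 x2
theorem h97 (h : In b E x1 x2) : Enc S E (t97 b) (v97 x1 x2) := enc_mul hS (h89 h) (h93 h)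

def t98 (b : Bx) : TM := tsub (t97 b) (t95 b)
noncomputable def v98 (x1 x2 : ℝ) : ℝ := v97 x1 x2 - v95 x1 x2
theorem h98 (h : In b E x1 x2) : Enc S E (t98 b) (v98 x1 x2) := enc_sub (h97 h) (h95 h)

def t99 (b : Bx) : TM := tadd (t5 b) (t90 b)
noncomputable def v99 (x1 x2 : ℝ) : ℝ := v5 x1 x2 + v90 x1 x2
theorem h99 (h : In b E x1 x2) : Enc S E (t99 b) (v99 x1 x2) := enc_add (h5 h) (h90 h)

def t100 (b : Bx) : TM := tsub (t99 b) (t69 b)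
noncomputable def v100 (x1 x2 : ℝ) : ℝ := v99 x1 x2 - v69 x1 x2
theorem h100 (h : In b E x1 x2) : Enc S E (t100 b) (v100 x1 x2) := enc_sub (h99 h) (h69 h)

def t101 (b : Bx) : TM := tnat 2 (t100 b)
noncomputable def v101 (x1 x2 : ℝ) : ℝ := ((2 : ℕ) : ℝ) * v100 x1 x2
theorem h101 (h : In b E x1 x2) : Enc S E (t101 b) (v101 x1 x2) := enc_nat 2 (h100 h)

def t102 (b : Bx) : TM := tnat 2 (t93 b)
noncomputable def v102 (x1 x2 : ℝ) : ℝ := ((2 : ℕ) : ℝ) * v93 x1 x2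
theorem h102 (h : In b E x1 x2) : Enc S E (t102 b) (v102 x1 x2) := enc_nat 2 (h93 h)

def t103 (b : Bx) : TM := tinv S (t101 b)
noncomputable def v103 (x1 x2 : ℝ) : ℝ := (v101 x1 x2)⁻¹
theorem h103 (h : In b E x1 x2) : Enc S E (t103 b) (v103 x1 x2) := enc_inv hS (h101 h)

def t104 (b : Bx) : TM := tmul S (t78 b) (t103 b)
noncomputable def v104 (x1 x2 : ℝ) : ℝ := v78 x1 x2 * v103 x1 x2
theorem h104 (h : In b E x1 x2) : Enc S E (t104 b) (v104 x1 x2) := enc_mul hS (h78 h) (h103 h)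

def t105 (b : Bx) : TM := tmul S (t102 b) (t104 b)
noncomputable def v105 (x1 x2 : ℝ) : ℝ := v102 x1 x2 * v104 x1 x2
theorem h105 (h : In b E x1 x2) : Enc S E (t105 b) (v105 x1 x2) := enc_mul hS (h102 h) (h104 h)

def t108 (b : Bx) : TM := tmul S (t98 b) (t78 b)
noncomputable def v108 (x1 x2 : ℝ) : ℝ := v98 x1 x2 * v78 x1 x2
theorem h108 (h : In b E x1 x2) : Enc S E (t108 b) (v108 x1 x2) := enc_mul hS (h98 h) (h78 h)

def t109 (b : Bx) : TM := tmul S (t94 b) (t105 b)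
noncomputable def v109 (x1 x2 : ℝ) : ℝ := v94 x1 x2 * v105 x1 x2
theorem h109 (h : In b E x1 x2) : Enc S E (t109 b) (v109 x1 x2) := enc_mul hS (h94 h) (h105 h)

def t111 (b : Bx) : TM := tsub (t108 b) (t109 b)
noncomputable def v111 (x1 x2 : ℝ) : ℝ := v108 x1 x2 - v109 x1 x2
theorem h111 (h : In b E x1 x2) : Enc S E (t111 b) (v111 x1 x2) := enc_sub (h108 h) (h109 h)

def t112 (b : Bx) : TM := kxq1_t (t66 b) (t26 b)
noncomputable def v112 (x1 x2 : ℝ) : ℝ := kxq1_v (v66 x1 x2) (v26 x1 x2)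
theorem h112 (h : In b E x1 x2) : Enc S E (t112 b) (v112 x1 x2) := kxq1_enc (h66 h) (h26 h)

def t113 (b : Bx) : TM := tadd (t66 b) (t68 b)
noncomputable def v113 (x1 x2 : ℝ) : ℝ := v66 x1 x2 + v68 x1 x2
theorem h113 (h : In b E x1 x2) : Enc S E (t113 b) (v113 x1 x2) := enc_add (h66 h) (h68 h)

def t114 (b : Bx) : TM := f2m_t (t26 b)
noncomputable def v114 (x1 x2 : ℝ) : ℝ := f2m_v (v26 x1 x2)
theorem h114 (h : In b E x1 x2) : Enc S E (t114 b) (v114 x1 x2) := f2m_enc (h26 h)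

def t115 (b : Bx) : TM := tsub (t114 b) (t66 b)
noncomputable def v115 (x1 x2 : ℝ) : ℝ := v114 x1 x2 - v66 x1 x2
theorem h115 (h : In b E x1 x2) : Enc S E (t115 b) (v115 x1 x2) := enc_sub (h114 h) (h66 h)

def t121 (b : Bx) : TM := tmul S (t64 b) (t112 b)
noncomputable def v121 (x1 x2 : ℝ) : ℝ := v64 x1 x2 * v112 x1 x2
theorem h121 (h : In b E x1 x2) : Enc S E (t121 b) (v121 x1 x2) := enc_mul hS (h64 h) (h112 h)

def t122 (b : Bx) : TM := tinv S (t113 b)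
noncomputable def v122 (x1 x2 : ℝ) : ℝ := (v113 x1 x2)⁻¹
theorem h122 (h : In b E x1 x2) : Enc S E (t122 b) (v122 x1 x2) := enc_inv hS (h113 h)

def t123 (b : Bx) : TM := tmul S (t121 b) (t122 b)
noncomputable def v123 (x1 x2 : ℝ) : ℝ := v121 x1 x2 * v122 x1 x2
theorem h123 (h : In b E x1 x2) : Enc S E (t123 b) (v123 x1 x2) := enc_mul hS (h121 h) (h122 h)

def t124 (b : Bx) : TM := tadd (t111 b) (t123 b)
noncomputable def v124 (x1 x2 : ℝ) : ℝ := v111 x1 x2 + v123 x1 x2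
theorem h124 (h : In b E x1 x2) : Enc S E (t124 b) (v124 x1 x2) := enc_add (h111 h) (h123 h)

def t126 (b : Bx) : TM := tmul S (t0 b) (t24 b)
noncomputable def v126 (x1 x2 : ℝ) : ℝ := v0 x1 x2 * v24 x1 x2
theorem h126 (h : In b E x1 x2) : Enc S E (t126 b) (v126 x1 x2) := enc_mul hS (h0 h) (h24 h)

def t127 (b : Bx) : TM := tmul S (t1 b) (t7 b)
noncomputable def v127 (x1 x2 : ℝ) : ℝ := v1 x1 x2 * v7 x1 x2
theorem h127 (h : In b E x1 x2) : Enc S E (t127 b) (v127 x1 x2) := enc_mul hS (h1 h) (h7 h)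

def t128 (b : Bx) : TM := tsub (t126 b) (t127 b)
noncomputable def v128 (x1 x2 : ℝ) : ℝ := v126 x1 x2 - v127 x1 x2
theorem h128 (h : In b E x1 x2) : Enc S E (t128 b) (v128 x1 x2) := enc_sub (h126 h) (h127 h)

def t129 (b : Bx) : TM := tinv S (t2 b)
noncomputable def v129 (x1 x2 : ℝ) : ℝ := (v2 x1 x2)⁻¹
theorem h129 (h : In b E x1 x2) : Enc S E (t129 b) (v129 x1 x2) := enc_inv hS (h2 h)

def t130 (b : Bx) : TM := tmul S (t128 b) (t129 b)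
noncomputable def v130 (x1 x2 : ℝ) : ℝ := v128 x1 x2 * v129 x1 x2
theorem h130 (h : In b E x1 x2) : Enc S E (t130 b) (v130 x1 x2) := enc_mul hS (h128 h) (h129 h)

def t131 (b : Bx) : TM := tsub (t130 b) (t9 b)
noncomputable def v131 (x1 x2 : ℝ) : ℝ := v130 x1 x2 - v9 x1 x2
theorem h131 (h : In b E x1 x2) : Enc S E (t131 b) (v131 x1 x2) := enc_sub (h130 h) (h9 h)

def t133 (b : Bx) : TM := tmul S (t0 b) (t58 b)
noncomputable def v133 (x1 x2 : ℝ) : ℝ := v0 x1 x2 * v58 x1 x2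
theorem h133 (h : In b E x1 x2) : Enc S E (t133 b) (v133 x1 x2) := enc_mul hS (h0 h) (h58 h)

def t137 (b : Bx) : TM := tadd (t133 b) (t7 b)
noncomputable def v137 (x1 x2 : ℝ) : ℝ := v133 x1 x2 + v7 x1 x2
theorem h137 (h : In b E x1 x2) : Enc S E (t137 b) (v137 x1 x2) := enc_add (h133 h) (h7 h)

def t139 (b : Bx) : TM := tmul S (t137 b) (t129 b)
noncomputable def v139 (x1 x2 : ℝ) : ℝ := v137 x1 x2 * v129 x1 x2
theorem h139 (h : In b E x1 x2) : Enc S E (t139 b) (v139 x1 x2) := enc_mul hS (h137 h) (h129 h)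

def t141 (b : Bx) : TM := tsub (t7 b) (t3 b)
noncomputable def v141 (x1 x2 : ℝ) : ℝ := v7 x1 x2 - v3 x1 x2
theorem h141 (h : In b E x1 x2) : Enc S E (t141 b) (v141 x1 x2) := enc_sub (h7 h) (h3 h)

def t142 (b : Bx) : TM := tsub (t26 b) (t3 b)
noncomputable def v142 (x1 x2 : ℝ) : ℝ := v26 x1 x2 - v3 x1 x2
theorem h142 (h : In b E x1 x2) : Enc S E (t142 b) (v142 x1 x2) := enc_sub (h26 h) (h3 h)

def t144 (b : Bx) : TM := tmul S (t2 b) (t18 b)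
noncomputable def v144 (x1 x2 : ℝ) : ℝ := v2 x1 x2 * v18 x1 x2
theorem h144 (h : In b E x1 x2) : Enc S E (t144 b) (v144 x1 x2) := enc_mul hS (h2 h) (h18 h)

def t146 (b : Bx) : TM := tneg (t144 b)
noncomputable def v146 (x1 x2 : ℝ) : ℝ := -(v144 x1 x2)
theorem h146 (h : In b E x1 x2) : Enc S E (t146 b) (v146 x1 x2) := enc_neg (h144 h)

def t147 (b : Bx) : TM := tsub (t146 b) (t19 b)
noncomputable def v147 (x1 x2 : ℝ) : ℝ := v146 x1 x2 - v19 x1 x2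
theorem h147 (h : In b E x1 x2) : Enc S E (t147 b) (v147 x1 x2) := enc_sub (h146 h) (h19 h)

def t148 (b : Bx) : TM := tsub (t2 b) (t58 b)
noncomputable def v148 (x1 x2 : ℝ) : ℝ := v2 x1 x2 - v58 x1 x2
theorem h148 (h : In b E x1 x2) : Enc S E (t148 b) (v148 x1 x2) := enc_sub (h2 h) (h58 h)

def t149 (b : Bx) : TM := tsub (t22 b) (t18 b)
noncomputable def v149 (x1 x2 : ℝ) : ℝ := v22 x1 x2 - v18 x1 x2
theorem h149 (h : In b E x1 x2) : Enc S E (t149 b) (v149 x1 x2) := enc_sub (h22 h) (h18 h)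

def t150 (b : Bx) : TM := tmul S (t2 b) (t19 b)
noncomputable def v150 (x1 x2 : ℝ) : ℝ := v2 x1 x2 * v19 x1 x2
theorem h150 (h : In b E x1 x2) : Enc S E (t150 b) (v150 x1 x2) := enc_mul hS (h2 h) (h19 h)

def t151 (b : Bx) : TM := tsub (t149 b) (t150 b)
noncomputable def v151 (x1 x2 : ℝ) : ℝ := v149 x1 x2 - v150 x1 x2
theorem h151 (h : In b E x1 x2) : Enc S E (t151 b) (v151 x1 x2) := enc_sub (h149 h) (h150 h)

def t152 (b : Bx) : TM := tsub (t5 b) (t91 b)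
noncomputable def v152 (x1 x2 : ℝ) : ℝ := v5 x1 x2 - v91 x1 x2
theorem h152 (h : In b E x1 x2) : Enc S E (t152 b) (v152 x1 x2) := enc_sub (h5 h) (h91 h)

def t153 (b : Bx) : TM := tmul S (t147 b) (t151 b)
noncomputable def v153 (x1 x2 : ℝ) : ℝ := v147 x1 x2 * v151 x1 x2
theorem h153 (h : In b E x1 x2) : Enc S E (t153 b) (v153 x1 x2) := enc_mul hS (h147 h) (h151 h)

def t154 (b : Bx) : TM := tmul S (t148 b) (t35 b)
noncomputable def v154 (x1 x2 : ℝ) : ℝ := v148 x1 x2 * v35 x1 x2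
theorem h154 (h : In b E x1 x2) : Enc S E (t154 b) (v154 x1 x2) := enc_mul hS (h148 h) (h35 h)

def t155 (b : Bx) : TM := tmul S (t147 b) (t152 b)
noncomputable def v155 (x1 x2 : ℝ) : ℝ := v147 x1 x2 * v152 x1 x2
theorem h155 (h : In b E x1 x2) : Enc S E (t155 b) (v155 x1 x2) := enc_mul hS (h147 h) (h152 h)

def t156 (b : Bx) : TM := tadd (t154 b) (t155 b)
noncomputable def v156 (x1 x2 : ℝ) : ℝ := v154 x1 x2 + v155 x1 x2
theorem h156 (h : In b E x1 x2) : Enc S E (t156 b) (v156 x1 x2) := enc_add (h154 h) (h155 h)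

def t157 (b : Bx) : TM := tsub (t19 b) (t3 b)
noncomputable def v157 (x1 x2 : ℝ) : ℝ := v19 x1 x2 - v3 x1 x2
theorem h157 (h : In b E x1 x2) : Enc S E (t157 b) (v157 x1 x2) := enc_sub (h19 h) (h3 h)

def t158 (b : Bx) : TM := tnat 4 (t157 b)
noncomputable def v158 (x1 x2 : ℝ) : ℝ := ((4 : ℕ) : ℝ) * v157 x1 x2
theorem h158 (h : In b E x1 x2) : Enc S E (t158 b) (v158 x1 x2) := enc_nat 4 (h157 h)

def t159 (b : Bx) : TM := tnat 4 (t58 b)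
noncomputable def v159 (x1 x2 : ℝ) : ℝ := ((4 : ℕ) : ℝ) * v58 x1 x2
theorem h159 (h : In b E x1 x2) : Enc S E (t159 b) (v159 x1 x2) := enc_nat 4 (h58 h)

def t160 (b : Bx) : TM := tinv S (t158 b)
noncomputable def v160 (x1 x2 : ℝ) : ℝ := (v158 x1 x2)⁻¹
theorem h160 (h : In b E x1 x2) : Enc S E (t160 b) (v160 x1 x2) := enc_inv hS (h158 h)

def t161 (b : Bx) : TM := tmul S (t39 b) (t160 b)
noncomputable def v161 (x1 x2 : ℝ) : ℝ := v39 x1 x2 * v160 x1 x2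
theorem h161 (h : In b E x1 x2) : Enc S E (t161 b) (v161 x1 x2) := enc_mul hS (h39 h) (h160 h)

def t162 (b : Bx) : TM := tmul S (t159 b) (t161 b)
noncomputable def v162 (x1 x2 : ℝ) : ℝ := v159 x1 x2 * v161 x1 x2
theorem h162 (h : In b E x1 x2) : Enc S E (t162 b) (v162 x1 x2) := enc_mul hS (h159 h) (h161 h)

def t165 (b : Bx) : TM := tmul S (t156 b) (t39 b)
noncomputable def v165 (x1 x2 : ℝ) : ℝ := v156 x1 x2 * v39 x1 x2
theorem h165 (h : In b E x1 x2) : Enc S E (t165 b) (v165 x1 x2) := enc_mul hS (h156 h) (h39 h)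

def t166 (b : Bx) : TM := tmul S (t153 b) (t162 b)
noncomputable def v166 (x1 x2 : ℝ) : ℝ := v153 x1 x2 * v162 x1 x2
theorem h166 (h : In b E x1 x2) : Enc S E (t166 b) (v166 x1 x2) := enc_mul hS (h153 h) (h162 h)

def t168 (b : Bx) : TM := tsub (t165 b) (t166 b)
noncomputable def v168 (x1 x2 : ℝ) : ℝ := v165 x1 x2 - v166 x1 x2
theorem h168 (h : In b E x1 x2) : Enc S E (t168 b) (v168 x1 x2) := enc_sub (h165 h) (h166 h)

def t169 (b : Bx) : TM := tadd (t168 b) (t124 b)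
noncomputable def v169 (x1 x2 : ℝ) : ℝ := v168 x1 x2 + v124 x1 x2
theorem h169 (h : In b E x1 x2) : Enc S E (t169 b) (v169 x1 x2) := enc_add (h168 h) (h124 h)

def t171 (b : Bx) : TM := tmul S (t141 b) (t168 b)
noncomputable def v171 (x1 x2 : ℝ) : ℝ := v141 x1 x2 * v168 x1 x2
theorem h171 (h : In b E x1 x2) : Enc S E (t171 b) (v171 x1 x2) := enc_mul hS (h141 h) (h168 h)

def t172 (b : Bx) : TM := tmul S (t58 b) (t0 b)
noncomputable def v172 (x1 x2 : ℝ) : ℝ := v58 x1 x2 * v0 x1 x2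
theorem h172 (h : In b E x1 x2) : Enc S E (t172 b) (v172 x1 x2) := enc_mul hS (h58 h) (h0 h)

def t173 (b : Bx) : TM := tsub (t171 b) (t172 b)
noncomputable def v173 (x1 x2 : ℝ) : ℝ := v171 x1 x2 - v172 x1 x2
theorem h173 (h : In b E x1 x2) : Enc S E (t173 b) (v173 x1 x2) := enc_sub (h171 h) (h172 h)

def t179 (b : Bx) : TM := tsub (t3 b) (t7 b)
noncomputable def v179 (x1 x2 : ℝ) : ℝ := v3 x1 x2 - v7 x1 x2
theorem h179 (h : In b E x1 x2) : Enc S E (t179 b) (v179 x1 x2) := enc_sub (h3 h) (h7 h)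

def t180 (b : Bx) : TM := tsub (t2 b) (t24 b)
noncomputable def v180 (x1 x2 : ℝ) : ℝ := v2 x1 x2 - v24 x1 x2
theorem h180 (h : In b E x1 x2) : Enc S E (t180 b) (v180 x1 x2) := enc_sub (h2 h) (h24 h)

def t181 (b : Bx) : TM := qn_t (t180 b) (t141 b) (t139 b) (t173 b) (t169 b)
noncomputable def v181 (x1 x2 : ℝ) : ℝ := qn_v (v180 x1 x2) (v141 x1 x2) (v139 x1 x2) (v173 x1 x2) (v169 x1 x2)
theorem h181 (h : In b E x1 x2) : Enc S E (t181 b) (v181 x1 x2) := qn_enc (h180 h) (h141 h) (h139 h) (h173 h) (h169 h)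

def t182 (b : Bx) : TM := tscale 3 4 (t2 b)
noncomputable def v182 (x1 x2 : ℝ) : ℝ := ((3 : ℕ) : ℝ) / ((4 : ℕ) : ℝ) * v2 x1 x2
theorem h182 (h : In b E x1 x2) : Enc S E (t182 b) (v182 x1 x2) := enc_scale 3 (by norm_num) (h2 h)

def t184 (b : Bx) : TM := tsub (t7 b) (t182 b)
noncomputable def v184 (x1 x2 : ℝ) : ℝ := v7 x1 x2 - v182 x1 x2
theorem h184 (h : In b E x1 x2) : Enc S E (t184 b) (v184 x1 x2) := enc_sub (h7 h) (h182 h)

def t185 (b : Bx) : TM := tscale 1 4 (t2 b)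
noncomputable def v185 (x1 x2 : ℝ) : ℝ := ((1 : ℕ) : ℝ) / ((4 : ℕ) : ℝ) * v2 x1 x2
theorem h185 (h : In b E x1 x2) : Enc S E (t185 b) (v185 x1 x2) := enc_scale 1 (by norm_num) (h2 h)

def t187 (b : Bx) : TM := tsub (t185 b) (t26 b)
noncomputable def v187 (x1 x2 : ℝ) : ℝ := v185 x1 x2 - v26 x1 x2
theorem h187 (h : In b E x1 x2) : Enc S E (t187 b) (v187 x1 x2) := enc_sub (h185 h) (h26 h)

def t189 (b : Bx) : TM := tsub (t182 b) (t24 b)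
noncomputable def v189 (x1 x2 : ℝ) : ℝ := v182 x1 x2 - v24 x1 x2
theorem h189 (h : In b E x1 x2) : Enc S E (t189 b) (v189 x1 x2) := enc_sub (h182 h) (h24 h)

def t190 (_b : Bx) : TM := tconst (Nat.div (Nat.mul 1 S) 16) 0 1
noncomputable def v190 (_x1 _x2 : ℝ) : ℝ := ((1 : ℕ) : ℝ) / ((16 : ℕ) : ℝ)
theorem h190 (_h : In b E x1 x2) : Enc S E (t190 b) (v190 x1 x2) := enc_rat E 1 (by norm_num)

def t191 (b : Bx) : TM := tsub (t27 b) (t190 b)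
noncomputable def v191 (x1 x2 : ℝ) : ℝ := v27 x1 x2 - v190 x1 x2
theorem h191 (h : In b E x1 x2) : Enc S E (t191 b) (v191 x1 x2) := enc_sub (h27 h) (h190 h)

def t192 (b : Bx) : TM := tsub (t20 b) (t190 b)
noncomputable def v192 (x1 x2 : ℝ) : ℝ := v20 x1 x2 - v190 x1 x2
theorem h192 (h : In b E x1 x2) : Enc S E (t192 b) (v192 x1 x2) := enc_sub (h20 h) (h190 h)

def t193 (b : Bx) : TM := tsub (t7 b) (t24 b)
noncomputable def v193 (x1 x2 : ℝ) : ℝ := v7 x1 x2 - v24 x1 x2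
theorem h193 (h : In b E x1 x2) : Enc S E (t193 b) (v193 x1 x2) := enc_sub (h7 h) (h24 h)

def t194 (b : Bx) : TM := tsub (t5 b) (t44 b)
noncomputable def v194 (x1 x2 : ℝ) : ℝ := v5 x1 x2 - v44 x1 x2
theorem h194 (h : In b E x1 x2) : Enc S E (t194 b) (v194 x1 x2) := enc_sub (h5 h) (h44 h)

def t195 (b : Bx) : TM := tadd (t131 b) (t9 b)
noncomputable def v195 (x1 x2 : ℝ) : ℝ := v131 x1 x2 + v9 x1 x2
theorem h195 (h : In b E x1 x2) : Enc S E (t195 b) (v195 x1 x2) := enc_add (h131 h) (h9 h)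

def t196 (b : Bx) : TM := tneg (t195 b)
noncomputable def v196 (x1 x2 : ℝ) : ℝ := -(v195 x1 x2)
theorem h196 (h : In b E x1 x2) : Enc S E (t196 b) (v196 x1 x2) := enc_neg (h195 h)

def g0 (b : Bx) : Bool := and (pos (t64 b)) (and (pos (t23 b)) (and (pos (t56 b)) (and (pos (t67 b)) (and (pos (t82 b)) (and (pos (t77 b)) (and (pos (t101 b)) (and (pos (t113 b)) (and (pos (t115 b)) (and (pos (t38 b)) (and (pos (t158 b)) (or (pos (t20 b)) (pos (t181 b)))))))))))))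

def l0 (b : Bx) : Nat := cond (g0 b) 0 (pickb 1 (t181 b) b)

def P0 (x1 x2 : ℝ) : Prop := 0 < v64 x1 x2 ∧ 0 < v23 x1 x2 ∧ 0 < v56 x1 x2 ∧ 0 < v67 x1 x2 ∧ 0 < v82 x1 x2 ∧ 0 < v77 x1 x2 ∧ 0 < v101 x1 x2 ∧ 0 < v113 x1 x2 ∧ 0 < v115 x1 x2 ∧ 0 < v38 x1 x2 ∧ 0 < v158 x1 x2 ∧ (0 < v20 x1 x2 ∨ 0 < v181 x1 x2)

theorem l0_sound (h : In b E x1 x2) (e : l0 b = 0) : P0 x1 x2 := by
  have e1 : g0 b = true := by
    rcases e2 : g0 b with _ | _
    · unfold l0 at e; rw [e2, cond_false] at e; exact absurd e (pickb_ne _ _ _)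
    · rfl
  exact ⟨pos_sound hS (h64 h) (Bool.and_eq_true_iff.mp e1).1, ⟨pos_sound hS (h23 h) (Bool.and_eq_true_iff.mp (Bool.and_eq_true_iff.mp e1).2).1, ⟨pos_sound hS (h56 h) (Bool.and_eq_true_iff.mp (Bool.and_eq_true_iff.mp (Bool.and_eq_true_iff.mp e1).2).2).1, ⟨pos_sound hS (h67 h) (Bool.and_eq_true_iff.mp (Bool.and_eq_true_iff.mp (Bool.and_eq_true_iff.mp (Bool.and_eq_true_iff.mp e1).2).2).2).1, ⟨pos_sound hS (h82 h) (Bool.and_eq_true_iff.mp (Bool.and_eq_true_iff.mp (Bool.and_eq_true_iff.mp (Bool.and_eq_true_iff.mp (Bool.and_eq_true_iff.mp e1).2).2).2).2).1, ⟨pos_sound hS (h77 h) (Bool.and_eq_true_iff.mp (Bool.and_eq_true_iff.mp (Bool.and_eq_true_iff.mp (Bool.and_eq_true_iff.mp (Bool.and_eq_true_iff.mp (Bool.and_eq_true_iff.mp e1).2).2).2).2).2).1, ⟨pos_sound hS (h101 h) (Bool.and_eq_true_iff.mp (Bool.and_eq_true_iff.mp (Bool.and_eq_true_iff.mp (Bool.and_eq_true_iff.mp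 (Bool.and_eq_true_iff.mp (Bool.and_eq_true_iff.mp (Bool.and_eq_true_iff.mp e1).2).2).2).2).2).2).1, ⟨pos_sound hS (h113 h) (Bool.and_eq_true_iff.mp (Bool.and_eq_true_iff.mp (Bool.and_eq_true_iff.mp (Bool.and_eq_true_iff.mp (Bool.and_eq_true_iff.mp (Bool.and_eq_true_iff.mp (Bool.and_eq_true_iff.mp (Bool.and_eq_true_iff.mp e1).2).2).2).2).2).2).2).1, ⟨pos_sound hS (h115 h) (Bool.and_eq_true_iff.mp (Bool.and_eq_true_iff.mp (Bool.and_eq_true_iff.mp (Bool.and_eq_true_iff.mp (Bool.and_eq_true_iff.mp (Bool.and_eq_true_iff.mp (Bool.and_eq_true_iff.mp (Bool.and_eq_true_iff.mp (Bool.and_eq_true_iff.mp e1).2).2).2).2).2).2).2).2).1, ⟨pos_sound hS (h38 h) (Bool.and_eq_true_iff.mp (Bool.and_eq_true_iff.mp (Bool.and_eq_true_iff.mp (Bool.and_eq_true_iff.mp (Bool.and_eq_true_iff.mp (Bool.and_eq_true_iff.mp (Bool.and_eq_true_iff.mp (Bool.and_eq_true_iff.mp (Bool.and_eq_true_iff.mp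 (Bool.and_eq_true_iff.mp e1).2).2).2).2).2).2).2).2).2).1, ⟨pos_sound hS (h158 h) (Bool.and_eq_true_iff.mp (Bool.and_eq_true_iff.mp (Bool.and_eq_true_iff.mp (Bool.and_eq_true_iff.mp (Bool.and_eq_true_iff.mp (Bool.and_eq_true_iff.mp (Bool.and_eq_true_iff.mp (Bool.and_eq_true_iff.mp (Bool.and_eq_true_iff.mp (Bool.and_eq_true_iff.mp (Bool.and_eq_true_iff.mp e1).2).2).2).2).2).2).2).2).2).2).1, ((Bool.or_eq_true_iff.mp (Bool.and_eq_true_iff.mp (Bool.and_eq_true_iff.mp (Bool.and_eq_true_iff.mp (Bool.and_eq_true_iff.mp (Bool.and_eq_true_iff.mp (Bool.and_eq_true_iff.mp (Bool.and_eq_true_iff.mp (Bool.and_eq_true_iff.mp (Bool.and_eq_true_iff.mp (Bool.and_eq_true_iff.mp (Bool.and_eq_true_iff.mp e1).2).2).2).2).2).2).2).2).2).2).2).imp (fun a => pos_sound hS (h20 h) a) (fun a => pos_sound hS (h181 h) a))⟩⟩⟩⟩⟩⟩⟩⟩⟩⟩⟩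

def g1 (b : Bx) : Bool := or (pos (t179 b)) (or (pos (t184 b)) (or (pos (t187 b)) (or (pos (t142 b)) (or (pos (t189 b)) (or (pos (t191 b)) (or (pos (t192 b)) (or (pos (t193 b)) (or (pos (t194 b)) (pos (t196 b))))))))))

def l1 (b : Bx) : Nat := cond (g1 b) 0 (l0 b)

def P1 (x1 x2 : ℝ) : Prop := (0 < v179 x1 x2 ∨ 0 < v184 x1 x2 ∨ 0 < v187 x1 x2 ∨ 0 < v142 x1 x2 ∨ 0 < v189 x1 x2 ∨ 0 < v191 x1 x2 ∨ 0 < v192 x1 x2 ∨ 0 < v193 x1 x2 ∨ 0 < v194 x1 x2 ∨ 0 < v196 x1 x2) ∨ (P0 x1 x2)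

theorem l1_sound (h : In b E x1 x2) (e : l1 b = 0) : P1 x1 x2 := by
  unfold l1 at e
  rcases e1 : g1 b with _ | _
  · rw [e1, cond_false] at e
    have z0 : l0 b = 0 := e
    exact Or.inr (l0_sound h z0)
  · exact Or.inl (((Bool.or_eq_true_iff.mp e1).imp (fun a => pos_sound hS (h179 h) a) (fun a => ((Bool.or_eq_true_iff.mp a).imp (fun a => pos_sound hS (h184 h) a) (fun a => ((Bool.or_eq_true_iff.mp a).imp (fun a => pos_sound hS (h187 h) a) (fun a => ((Bool.or_eq_true_iff.mp a).imp (fun a => pos_sound hS (h142 h) a) (fun a => ((Bool.or_eq_true_iff.mp a).imp (fun a => pos_sound hS (h189 h) a) (fun a => ((Bool.or_eq_true_iff.mp a).imp (fun a => pos_sound hS (h191 h) a) (fun a => ((Bool.or_eq_true_iff.mp a).imp (fun a => pos_sound hS (h192 h) a) (fun a => ((Bool.or_eq_true_iff.mp a).imp (fun a => pos_sound hS (h193 h) a) (fun a => ((Bool.or_eq_true_iff.mp a).imp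 (fun a => pos_sound hS (h194 h) a) (fun a => pos_sound hS (h196 h) a)))))))))))))))))))

def f (b : Bx) : Nat := l1 b

/-- the statement -/
def Q (x1 x2 : ℝ) : Prop := P1 x1 x2

theorem f_sound (b : Bx) (hb : f b = 0) (x1 x2 : ℝ) (hm : Mem S b x1 x2) : Q x1 x2 := by
  obtain ⟨E, h⟩ := pt_of_mem hm
  have h : In b E x1 x2 := h
  unfold f at hb
  have e := hb
  have z1 : l1 b = 0 := e
  exact (l1_sound h z1)

/-- the box -/
def b0 : Bx := ⟨0, 268435456, 268435457, 0, 615093004, 615093005⟩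

theorem chk_all {n : ℕ} {b : Bx} (h : chk f n b = true) (x1 x2 : ℝ) (hm : Mem S b x1 x2) : Q x1 x2 :=
  chk_sound (fun b hb x1 x2 hm => f_sound b hb x1 x2 hm) n b h x1 x2 hm


end Pool.Agent.Strip051.LB.ChB03V1_mm_213
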