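import Pool.Agent.Strip051.LB.ChB03V1_mm_213.Defs
import Pool.Agent.Strip051.LB.Slope
import Pool.Agent.Strip051.LB.Star
import Pool.Agent.Strip051.LB.Cf

/-! # LINE tight chart ChB03V1_mm_213: slopes -/

namespace Pool.Agent.Strip051.LB.ChB03V1_mm_213

open Pool.Agent.Strip051.LB Pool.Agent.Strip051.LB.Fn Pool.Agent.Strip051.LB.Fc Pool.Agent.StripNear

set_option maxRecDepth 100000
set_option linter.all false

noncomputable def v30 (x1 x2 : ℝ) : ℝ := v2 x1 x2 * v1 x1 x2

noncomputable def v31 (x1 x2 : ℝ) : ℝ := -(v30 x1 x2)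

noncomputable def v32 (x1 x2 : ℝ) : ℝ := v31 x1 x2 - v24 x1 x2

noncomputable def v36 (x1 x2 : ℝ) : ℝ := v32 x1 x2 * v35 x1 x2

noncomputable def v40 (x1 x2 : ℝ) : ℝ := v36 x1 x2 * v39 x1 x2

noncomputable def v45 (x1 x2 : ℝ) : ℝ := v44 x1 x2 - v5 x1 x2

noncomputable def v46 (x1 x2 : ℝ) : ℝ := -(v5 x1 x2)

noncomputable def v49 (x1 x2 : ℝ) : ℝ := (v48 x1 x2) ^ 2

noncomputable def v51 (x1 x2 : ℝ) : ℝ := -(v50 x1 x2)

noncomputable def v52 (x1 x2 : ℝ) : ℝ := (v18 x1 x2) ^ 2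

noncomputable def v54 (x1 x2 : ℝ) : ℝ := -(v53 x1 x2)

noncomputable def v55 (x1 x2 : ℝ) : ℝ := v22 x1 x2 - v52 x1 x2

noncomputable def v60 (x1 x2 : ℝ) : ℝ := (v59 x1 x2) ^ 2

noncomputable def v63 (x1 x2 : ℝ) : ℝ := v49 x1 x2 + v60 x1 x2

noncomputable def v65 (x1 x2 : ℝ) : ℝ := v63 x1 x2 - v5 x1 x2

noncomputable def v70 (x1 x2 : ℝ) : ℝ := ((2 : ℕ) : ℝ) * v68 x1 x2

noncomputable def v71 (x1 x2 : ℝ) : ℝ := v5 x1 x2 + v70 x1 x2

noncomputable def v74 (x1 x2 : ℝ) : ℝ := v71 x1 x2 * v73 x1 x2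

noncomputable def v79 (x1 x2 : ℝ) : ℝ := v74 x1 x2 * v78 x1 x2

noncomputable def v80 (x1 x2 : ℝ) : ℝ := v5 x1 x2 - v60 x1 x2

noncomputable def v81 (x1 x2 : ℝ) : ℝ := -(v62 x1 x2)

noncomputable def v85 (x1 x2 : ℝ) : ℝ := -(v84 x1 x2)

noncomputable def v88 (x1 x2 : ℝ) : ℝ := -(v87 x1 x2)

noncomputable def v106 (x1 x2 : ℝ) : ℝ := -(v105 x1 x2)

noncomputable def v107 (x1 x2 : ℝ) : ℝ := v94 x1 x2 * v103 x1 x2

noncomputable def v116 (x1 x2 : ℝ) : ℝ := v66 x1 x2 - v68 x1 x2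

noncomputable def v117 (x1 x2 : ℝ) : ℝ := v116 x1 x2 * v112 x1 x2

noncomputable def v118 (x1 x2 : ℝ) : ℝ := v79 x1 x2 + v117 x1 x2

noncomputable def v119 (x1 x2 : ℝ) : ℝ := -(v118 x1 x2)

noncomputable def v120 (x1 x2 : ℝ) : ℝ := -(v107 x1 x2)

noncomputable def v125 (x1 x2 : ℝ) : ℝ := -(v124 x1 x2)

noncomputable def v132 (x1 x2 : ℝ) : ℝ := v0 x1 x2 * v19 x1 x2

noncomputable def v134 (x1 x2 : ℝ) : ℝ := v18 x1 x2 * v7 x1 x2

noncomputable def v135 (x1 x2 : ℝ) : ℝ := -(v7 x1 x2)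

noncomputable def v136 (x1 x2 : ℝ) : ℝ := v132 x1 x2 - v134 x1 x2

noncomputable def v138 (x1 x2 : ℝ) : ℝ := v136 x1 x2 * v129 x1 x2

noncomputable def v140 (x1 x2 : ℝ) : ℝ := v138 x1 x2 - v9 x1 x2

noncomputable def v143 (x1 x2 : ℝ) : ℝ := v24 x1 x2 - v2 x1 x2

noncomputable def v145 (x1 x2 : ℝ) : ℝ := -(v2 x1 x2)

noncomputable def v163 (x1 x2 : ℝ) : ℝ := -(v162 x1 x2)

noncomputable def v164 (x1 x2 : ℝ) : ℝ := v153 x1 x2 * v160 x1 x2

noncomputable def v170 (x1 x2 : ℝ) : ℝ := v19 x1 x2 - v2 x1 x2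

noncomputable def v197 (x1 x2 : ℝ) : ℝ := v59 x1 x2 - v3 x1 x2

structure Cx (x1 x2 : ℝ) : Prop where
  hc : v7 x1 x2 ^ 2 + x1 ^ 2 = 1
  p23 : 0 < v23 x1 x2
  p56 : 0 < v56 x1 x2
  p67 : 0 < v67 x1 x2
  p82 : 0 < v82 x1 x2
  p77 : 0 < v77 x1 x2
  p101 : 0 < v101 x1 x2
  p113 : 0 < v113 x1 x2
  p115 : 0 < v115 x1 x2
  p38 : 0 < v38 x1 x2
  p158 : 0 < v158 x1 x2

variable {x1 x2 : ℝ}

theorem s3q (x1 x2 : ℝ) : v2 x1 x2 ^ 2 = 3 := by
  rw [v2]; exact s3sq

theorem s3ne (x1 x2 : ℝ) : v2 x1 x2 ≠ 0 := by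
  rw [v2]; positivity

theorem s1 (c : Cx x1 x2) : v1 x1 x2 = v18 x1 x2 + v27 x1 x2 * v46 x1 x2 := by
  simp only [v1, v5, v27, v46]
  (try push_cast)
  first | ring | grind

theorem s21 (c : Cx x1 x2) : v21 x1 x2 = v52 x1 x2 + v27 x1 x2 * v54 x1 x2 := by
  have a0 : (v1 x1 x2 + v18 x1 x2) * v1 x1 x2 = (v1 x1 x2 + v18 x1 x2) * (v18 x1 x2 + v27 x1 x2 * v46 x1 x2) := congrArg (fun z => (v1 x1 x2 + v18 x1 x2) * z) (s1 c)
  try simp only [v1, v5, v21, v27, v46, v52, v53, v54] at a0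
  simp only [v1, v5, v21, v27, v46, v52, v53, v54]
  (try push_cast at a0 ⊢)
  first | linear_combination a0 | ring | grind

theorem s23 (c : Cx x1 x2) : v23 x1 x2 = v55 x1 x2 + v27 x1 x2 * v53 x1 x2 := by
  have a1 := s21 c
  try simp only [v1, v22, v23, v27, v53, v54, v55] at a1
  simp only [v1, v22, v23, v27, v53, v54, v55]
  (try push_cast at a1 ⊢)
  first | linear_combination -a1 | ring | grind

theorem q24 (c : Cx x1 x2) : v55 x1 x2 = v19 x1 x2 ^ 2 := by
  have hc := c.hc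
  have h3 := s3q x1 x2
  simp only [v0, v3, v10, v11, v13, v14, v16, v17, v18, v19, v22, v52, v55] at hc ⊢
  push_cast at hc ⊢
  grind

theorem s24 (c : Cx x1 x2) : v24 x1 x2 = v19 x1 x2 + v27 x1 x2 * v58 x1 x2 := by
  have a0 := s23 c
  have e : 0 < Real.sqrt (v23 x1 x2) + v19 x1 x2 := by
    have e := c.p56
    simp only [v22, v23, v24, v56] at e ⊢
    push_cast at e ⊢
    linarith
  have b := sl_sqrt a0 (q24 c) (le_of_lt c.p23) e
  clear a0
  try simp only [v1, v22, v23, v24, v27, v53, v55, v56, v57, v58] at b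
  simp only [v1, v22, v23, v24, v27, v53, v55, v56, v57, v58]
  (try push_cast at b ⊢)
  first | linear_combination b | ring | grind

theorem s25 (c : Cx x1 x2) : v25 x1 x2 = v48 x1 x2 + v27 x1 x2 * v46 x1 x2 := by
  have a0 := s1 c
  try simp only [v0, v1, v5, v25, v27, v46, v48] at a0
  simp only [v0, v1, v5, v25, v27, v46, v48]
  (try push_cast at a0 ⊢)
  first | linear_combination a0 | ring | grind

theorem s26 (c : Cx x1 x2) : v26 x1 x2 = v59 x1 x2 + v27 x1 x2 * v58 x1 x2 := by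
  have a0 := s24 c
  try simp only [v1, v26, v27, v59] at a0
  simp only [v1, v26, v27, v59]
  (try push_cast at a0 ⊢)
  first | linear_combination a0 | ring | grind

theorem s30 (c : Cx x1 x2) : v30 x1 x2 = v144 x1 x2 + v27 x1 x2 * v145 x1 x2 := by
  have a1 : (v2 x1 x2) * v1 x1 x2 = (v2 x1 x2) * (v18 x1 x2 + v27 x1 x2 * v46 x1 x2) := congrArg (fun z => (v2 x1 x2) * z) (s1 c)
  try simp only [v1, v2, v5, v27, v30, v46, v144, v145] at a1
  simp only [v1, v2, v5, v27, v30, v46, v144, v145]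
  (try push_cast at a1 ⊢)
  first | linear_combination a1 | ring | grind

theorem s31 (c : Cx x1 x2) : v31 x1 x2 = v146 x1 x2 + v27 x1 x2 * v2 x1 x2 := by
  have a0 := s30 c
  try simp only [v1, v2, v27, v31, v145, v146] at a0
  simp only [v1, v2, v27, v31, v145, v146]
  (try push_cast at a0 ⊢)
  first | linear_combination -a0 | ring | grind

theorem s32 (c : Cx x1 x2) : v32 x1 x2 = v147 x1 x2 + v27 x1 x2 * v148 x1 x2 := by
  have a0 := s31 c
  have a1 := s24 c
  try simp only [v1, v2, v27, v31, v32, v146, v147, v148] at a0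
  try simp only [v1, v2, v27, v31, v32, v146, v147, v148] at a1
  simp only [v1, v2, v27, v31, v32, v146, v147, v148]
  (try push_cast at a0 a1 ⊢)
  first | linear_combination a0 - a1 | ring | grind

theorem s33 (c : Cx x1 x2) : v33 x1 x2 = v149 x1 x2 + v27 x1 x2 * v5 x1 x2 := by
  have a1 := s1 c
  try simp only [v1, v5, v22, v27, v33, v46, v149] at a1
  simp only [v1, v5, v22, v27, v33, v46, v149]
  (try push_cast at a1 ⊢)
  first | linear_combination -a1 | ring | grind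

theorem s34 (c : Cx x1 x2) : v34 x1 x2 = v150 x1 x2 + v27 x1 x2 * v91 x1 x2 := by
  have a1 : (v2 x1 x2) * v24 x1 x2 = (v2 x1 x2) * (v19 x1 x2 + v27 x1 x2 * v58 x1 x2) := congrArg (fun z => (v2 x1 x2) * z) (s24 c)
  try simp only [v1, v2, v27, v34, v91, v150] at a1
  simp only [v1, v2, v27, v34, v91, v150]
  (try push_cast at a1 ⊢)
  first | linear_combination a1 | ring | grind

theorem s35 (c : Cx x1 x2) : v35 x1 x2 = v151 x1 x2 + v27 x1 x2 * v152 x1 x2 := by
  have a0 := s33 c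
  have a1 := s34 c
  try simp only [v1, v5, v22, v27, v33, v35, v149, v151, v152] at a0
  try simp only [v1, v5, v22, v27, v33, v35, v149, v151, v152] at a1
  simp only [v1, v5, v22, v27, v33, v35, v149, v151, v152]
  (try push_cast at a0 a1 ⊢)
  first | linear_combination a0 - a1 | ring | grind

theorem s36 (c : Cx x1 x2) : v36 x1 x2 = v153 x1 x2 + v27 x1 x2 * v156 x1 x2 := by
  have a0 : (v35 x1 x2) * v32 x1 x2 = (v35 x1 x2) * (v147 x1 x2 + v27 x1 x2 * v148 x1 x2) := congrArg (fun z => (v35 x1 x2) * z) (s32 c)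
  have a1 : (v147 x1 x2) * v35 x1 x2 = (v147 x1 x2) * (v151 x1 x2 + v27 x1 x2 * v152 x1 x2) := congrArg (fun z => (v147 x1 x2) * z) (s35 c)
  try simp only [v1, v2, v5, v22, v27, v31, v32, v33, v35, v36, v146, v147, v148, v149, v151, v152, v153, v154, v155, v156] at a0
  try simp only [v1, v2, v5, v22, v27, v31, v32, v33, v35, v36, v146, v147, v148, v149, v151, v152, v153, v154, v155, v156] at a1
  simp only [v1, v2, v5, v22, v27, v31, v32, v33, v35, v36, v146, v147, v148, v149, v151, v152, v153, v154, v155, v156]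
  (try push_cast at a0 a1 ⊢)
  first | linear_combination a0 + a1 | ring | grind

theorem s37 (c : Cx x1 x2) : v37 x1 x2 = v157 x1 x2 + v27 x1 x2 * v58 x1 x2 := by
  have a0 := s24 c
  try simp only [v1, v2, v3, v27, v37, v157] at a0
  simp only [v1, v2, v3, v27, v37, v157]
  (try push_cast at a0 ⊢)
  first | linear_combination a0 | ring | grind

theorem s38 (c : Cx x1 x2) : v38 x1 x2 = v158 x1 x2 + v27 x1 x2 * v159 x1 x2 := by
  have a0 := s37 c
  try simp only [v1, v2, v3, v27, v37, v38, v157, v158, v159] at a0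
  simp only [v1, v2, v3, v27, v37, v38, v157, v158, v159]
  (try push_cast at a0 ⊢)
  first | linear_combination (4 : ℝ) * a0 | ring | grind

theorem s39 (c : Cx x1 x2) : v39 x1 x2 = v160 x1 x2 + v27 x1 x2 * v163 x1 x2 := by
  have a0 := s38 c
  have b := sl_inv a0 (c.p38).ne' (c.p158).ne'
  clear a0
  try simp only [v1, v2, v3, v27, v37, v38, v39, v157, v158, v159, v160, v161, v162, v163] at b
  simp only [v1, v2, v3, v27, v37, v38, v39, v157, v158, v159, v160, v161, v162, v163]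
  (try push_cast at b ⊢)
  first | linear_combination b | ring | grind

theorem s40 (c : Cx x1 x2) : v40 x1 x2 = v164 x1 x2 + v27 x1 x2 * v168 x1 x2 := by
  have a0 : (v39 x1 x2) * v36 x1 x2 = (v39 x1 x2) * (v153 x1 x2 + v27 x1 x2 * v156 x1 x2) := congrArg (fun z => (v39 x1 x2) * z) (s36 c)
  have a1 : (v153 x1 x2) * v39 x1 x2 = (v153 x1 x2) * (v160 x1 x2 + v27 x1 x2 * v163 x1 x2) := congrArg (fun z => (v153 x1 x2) * z) (s39 c)
  try simp only [v1, v27, v40, v156, v163, v164, v165, v166, v168] at a0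
  try simp only [v1, v27, v40, v156, v163, v164, v165, v166, v168] at a1
  simp only [v1, v27, v40, v156, v163, v164, v165, v166, v168]
  (try push_cast at a0 a1 ⊢)
  first | linear_combination a0 + a1 | ring | grind

theorem s42 (c : Cx x1 x2) : v42 x1 x2 = v49 x1 x2 + v27 x1 x2 * v51 x1 x2 := by
  have a0 : (v25 x1 x2 + v48 x1 x2) * v25 x1 x2 = (v25 x1 x2 + v48 x1 x2) * (v48 x1 x2 + v27 x1 x2 * v46 x1 x2) := congrArg (fun z => (v25 x1 x2 + v48 x1 x2) * z) (s25 c)
  try simp only [v0, v1, v5, v25, v27, v42, v46, v48, v49, v50, v51] at a0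
  simp only [v0, v1, v5, v25, v27, v42, v46, v48, v49, v50, v51]
  (try push_cast at a0 ⊢)
  first | linear_combination a0 | ring | grind

theorem s43 (c : Cx x1 x2) : v43 x1 x2 = v60 x1 x2 + v27 x1 x2 * v62 x1 x2 := by
  have a0 : (v26 x1 x2 + v59 x1 x2) * v26 x1 x2 = (v26 x1 x2 + v59 x1 x2) * (v59 x1 x2 + v27 x1 x2 * v58 x1 x2) := congrArg (fun z => (v26 x1 x2 + v59 x1 x2) * z) (s26 c)
  try simp only [v1, v26, v27, v43, v59, v60, v61, v62] at a0
  simp only [v1, v26, v27, v43, v59, v60, v61, v62]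
  (try push_cast at a0 ⊢)
  first | linear_combination a0 | ring | grind

theorem s44 (c : Cx x1 x2) : v44 x1 x2 = v63 x1 x2 + v27 x1 x2 * v64 x1 x2 := by
  have a0 := s42 c
  have a1 := s43 c
  try simp only [v0, v1, v25, v27, v44, v48, v50, v51, v63, v64] at a0
  try simp only [v0, v1, v25, v27, v44, v48, v50, v51, v63, v64] at a1
  simp only [v0, v1, v25, v27, v44, v48, v50, v51, v63, v64]
  (try push_cast at a0 a1 ⊢)
  first | linear_combination a0 + a1 | ring | grind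

theorem s45 (c : Cx x1 x2) : v45 x1 x2 = v65 x1 x2 + v27 x1 x2 * v64 x1 x2 := by
  have a0 := s44 c
  try simp only [v0, v1, v5, v25, v27, v44, v45, v48, v50, v63, v64, v65] at a0
  simp only [v0, v1, v5, v25, v27, v44, v45, v48, v50, v63, v64, v65]
  (try push_cast at a0 ⊢)
  first | linear_combination a0 | ring | grind

theorem s67 (c : Cx x1 x2) : v67 x1 x2 = v80 x1 x2 + v27 x1 x2 * v81 x1 x2 := by
  have a1 := s43 c
  try simp only [v1, v5, v27, v67, v80, v81] at a1
  simp only [v1, v5, v27, v67, v80, v81]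
  (try push_cast at a1 ⊢)
  first | linear_combination -a1 | ring | grind

theorem q68 (c : Cx x1 x2) : v80 x1 x2 = v69 x1 x2 ^ 2 := by
  have hc := c.hc
  have h3 := s3q x1 x2
  simp only [v0, v3, v5, v10, v11, v17, v19, v59, v60, v69, v80] at hc ⊢
  push_cast at hc ⊢
  grind

theorem s68 (c : Cx x1 x2) : v68 x1 x2 = v69 x1 x2 + v27 x1 x2 * v85 x1 x2 := by
  have a0 := s67 c
  have e : 0 < Real.sqrt (v67 x1 x2) + v69 x1 x2 := by
    have e := c.p82
    simp only [v0, v5, v10, v67, v68, v69, v82] at e ⊢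
    push_cast at e ⊢
    linarith
  have b := sl_sqrt a0 (q68 c) (le_of_lt c.p67) e
  clear a0
  try simp only [v0, v1, v5, v10, v27, v67, v68, v69, v80, v81, v82, v83, v84, v85] at b
  simp only [v0, v1, v5, v10, v27, v67, v68, v69, v80, v81, v82, v83, v84, v85]
  (try push_cast at b ⊢)
  first | linear_combination b | ring | grind

theorem s70 (c : Cx x1 x2) : v70 x1 x2 = v86 x1 x2 + v27 x1 x2 * v88 x1 x2 := by
  have a0 := s68 c
  try simp only [v0, v1, v10, v27, v69, v70, v85, v86, v87, v88] at a0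
  simp only [v0, v1, v10, v27, v69, v70, v85, v86, v87, v88]
  (try push_cast at a0 ⊢)
  first | linear_combination (2 : ℝ) * a0 | ring | grind

theorem s71 (c : Cx x1 x2) : v71 x1 x2 = v89 x1 x2 + v27 x1 x2 * v88 x1 x2 := by
  have a1 := s70 c
  try simp only [v0, v1, v5, v10, v27, v69, v70, v71, v86, v87, v88, v89] at a1
  simp only [v0, v1, v5, v10, v27, v69, v70, v71, v86, v87, v88, v89]
  (try push_cast at a1 ⊢)
  first | linear_combination a1 | ring | grind

theorem s72 (c : Cx x1 x2) : v72 x1 x2 = v90 x1 x2 + v27 x1 x2 * v91 x1 x2 := by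
  have a1 : (v2 x1 x2) * v26 x1 x2 = (v2 x1 x2) * (v59 x1 x2 + v27 x1 x2 * v58 x1 x2) := congrArg (fun z => (v2 x1 x2) * z) (s26 c)
  try simp only [v1, v2, v26, v27, v59, v72, v90, v91] at a1
  simp only [v1, v2, v26, v27, v59, v72, v90, v91]
  (try push_cast at a1 ⊢)
  first | linear_combination a1 | ring | grind

theorem s73 (c : Cx x1 x2) : v73 x1 x2 = v92 x1 x2 + v27 x1 x2 * v93 x1 x2 := by
  have a0 := s72 c
  have a1 := s68 c
  try simp only [v0, v1, v10, v27, v69, v73, v85, v92, v93] at a0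
  try simp only [v0, v1, v10, v27, v69, v73, v85, v92, v93] at a1
  simp only [v0, v1, v10, v27, v69, v73, v85, v92, v93]
  (try push_cast at a0 a1 ⊢)
  first | linear_combination a0 - a1 | ring | grind

theorem s74 (c : Cx x1 x2) : v74 x1 x2 = v94 x1 x2 + v27 x1 x2 * v98 x1 x2 := by
  have a0 : (v73 x1 x2) * v71 x1 x2 = (v73 x1 x2) * (v89 x1 x2 + v27 x1 x2 * v88 x1 x2) := congrArg (fun z => (v73 x1 x2) * z) (s71 c)
  have a1 : (v89 x1 x2) * v73 x1 x2 = (v89 x1 x2) * (v92 x1 x2 + v27 x1 x2 * v93 x1 x2) := congrArg (fun z => (v89 x1 x2) * z) (s73 c)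
  try simp only [v0, v1, v5, v10, v27, v69, v70, v71, v73, v74, v86, v87, v88, v89, v92, v93, v94, v95, v97, v98] at a0
  try simp only [v0, v1, v5, v10, v27, v69, v70, v71, v73, v74, v86, v87, v88, v89, v92, v93, v94, v95, v97, v98] at a1
  simp only [v0, v1, v5, v10, v27, v69, v70, v71, v73, v74, v86, v87, v88, v89, v92, v93, v94, v95, v97, v98]
  (try push_cast at a0 a1 ⊢)
  first | linear_combination a0 + a1 | ring | grind

theorem s75 (c : Cx x1 x2) : v75 x1 x2 = v99 x1 x2 + v27 x1 x2 * v91 x1 x2 := by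
  have a1 := s72 c
  try simp only [v1, v5, v27, v75, v99] at a1
  simp only [v1, v5, v27, v75, v99]
  (try push_cast at a1 ⊢)
  first | linear_combination a1 | ring | grind

theorem s76 (c : Cx x1 x2) : v76 x1 x2 = v100 x1 x2 + v27 x1 x2 * v93 x1 x2 := by
  have a0 := s75 c
  have a1 := s68 c
  try simp only [v0, v1, v5, v10, v27, v69, v75, v76, v85, v93, v99, v100] at a0
  try simp only [v0, v1, v5, v10, v27, v69, v75, v76, v85, v93, v99, v100] at a1
  simp only [v0, v1, v5, v10, v27, v69, v75, v76, v85, v93, v99, v100]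
  (try push_cast at a0 a1 ⊢)
  first | linear_combination a0 - a1 | ring | grind

theorem s77 (c : Cx x1 x2) : v77 x1 x2 = v101 x1 x2 + v27 x1 x2 * v102 x1 x2 := by
  have a0 := s76 c
  try simp only [v0, v1, v5, v10, v27, v69, v75, v76, v77, v93, v99, v100, v101, v102] at a0
  simp only [v0, v1, v5, v10, v27, v69, v75, v76, v77, v93, v99, v100, v101, v102]
  (try push_cast at a0 ⊢)
  first | linear_combination (2 : ℝ) * a0 | ring | grind

theorem s78 (c : Cx x1 x2) : v78 x1 x2 = v103 x1 x2 + v27 x1 x2 * v106 x1 x2 := by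
  have a0 := s77 c
  have b := sl_inv a0 (c.p77).ne' (c.p101).ne'
  clear a0
  try simp only [v0, v1, v5, v10, v27, v69, v75, v76, v77, v78, v93, v99, v100, v101, v102, v103, v104, v105, v106] at b
  simp only [v0, v1, v5, v10, v27, v69, v75, v76, v77, v78, v93, v99, v100, v101, v102, v103, v104, v105, v106]
  (try push_cast at b ⊢)
  first | linear_combination b | ring | grind

theorem s79 (c : Cx x1 x2) : v79 x1 x2 = v107 x1 x2 + v27 x1 x2 * v111 x1 x2 := by
  have a0 : (v78 x1 x2) * v74 x1 x2 = (v78 x1 x2) * (v94 x1 x2 + v27 x1 x2 * v98 x1 x2) := congrArg (fun z => (v78 x1 x2) * z) (s74 c)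
  have a1 : (v94 x1 x2) * v78 x1 x2 = (v94 x1 x2) * (v103 x1 x2 + v27 x1 x2 * v106 x1 x2) := congrArg (fun z => (v94 x1 x2) * z) (s78 c)
  try simp only [v1, v27, v79, v98, v106, v107, v108, v109, v111] at a0
  try simp only [v1, v27, v79, v98, v106, v107, v108, v109, v111] at a1
  simp only [v1, v27, v79, v98, v106, v107, v108, v109, v111]
  (try push_cast at a0 a1 ⊢)
  first | linear_combination a0 + a1 | ring | grind

theorem s126 (c : Cx x1 x2) : v126 x1 x2 = v132 x1 x2 + v27 x1 x2 * v133 x1 x2 := by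
  have a1 : (v0 x1 x2) * v24 x1 x2 = (v0 x1 x2) * (v19 x1 x2 + v27 x1 x2 * v58 x1 x2) := congrArg (fun z => (v0 x1 x2) * z) (s24 c)
  try simp only [v0, v1, v27, v126, v132, v133] at a1
  simp only [v0, v1, v27, v126, v132, v133]
  (try push_cast at a1 ⊢)
  first | linear_combination a1 | ring | grind

theorem s127 (c : Cx x1 x2) : v127 x1 x2 = v134 x1 x2 + v27 x1 x2 * v135 x1 x2 := by
  have a0 : (v7 x1 x2) * v1 x1 x2 = (v7 x1 x2) * (v18 x1 x2 + v27 x1 x2 * v46 x1 x2) := congrArg (fun z => (v7 x1 x2) * z) (s1 c)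
  try simp only [v1, v5, v27, v46, v127, v134, v135] at a0
  simp only [v1, v5, v27, v46, v127, v134, v135]
  (try push_cast at a0 ⊢)
  first | linear_combination a0 | ring | grind

theorem s128 (c : Cx x1 x2) : v128 x1 x2 = v136 x1 x2 + v27 x1 x2 * v137 x1 x2 := by
  have a0 := s126 c
  have a1 := s127 c
  try simp only [v1, v27, v128, v135, v136, v137] at a0
  try simp only [v1, v27, v128, v135, v136, v137] at a1
  simp only [v1, v27, v128, v135, v136, v137]
  (try push_cast at a0 a1 ⊢)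
  first | linear_combination a0 - a1 | ring | grind

theorem s130 (c : Cx x1 x2) : v130 x1 x2 = v138 x1 x2 + v27 x1 x2 * v139 x1 x2 := by
  have a0 : (v129 x1 x2) * v128 x1 x2 = (v129 x1 x2) * (v136 x1 x2 + v27 x1 x2 * v137 x1 x2) := congrArg (fun z => (v129 x1 x2) * z) (s128 c)
  try simp only [v1, v27, v128, v130, v136, v137, v138, v139] at a0
  simp only [v1, v27, v128, v130, v136, v137, v138, v139]
  (try push_cast at a0 ⊢)
  first | linear_combination a0 | ring | grind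

theorem s131 (c : Cx x1 x2) : v131 x1 x2 = v140 x1 x2 + v27 x1 x2 * v139 x1 x2 := by
  have a0 := s130 c
  try simp only [v1, v9, v27, v131, v140] at a0
  simp only [v1, v9, v27, v131, v140]
  (try push_cast at a0 ⊢)
  first | linear_combination a0 | ring | grind

theorem s142 (c : Cx x1 x2) : v142 x1 x2 = v197 x1 x2 + v27 x1 x2 * v58 x1 x2 := by
  have a0 := s26 c
  try simp only [v1, v2, v3, v26, v27, v59, v142, v197] at a0
  simp only [v1, v2, v3, v26, v27, v59, v142, v197]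
  (try push_cast at a0 ⊢)
  first | linear_combination a0 | ring | grind

theorem s143 (c : Cx x1 x2) : v143 x1 x2 = v170 x1 x2 + v27 x1 x2 * v58 x1 x2 := by
  have a0 := s24 c
  try simp only [v1, v2, v27, v143, v170] at a0
  simp only [v1, v2, v27, v143, v170]
  (try push_cast at a0 ⊢)
  first | linear_combination a0 | ring | grind

theorem bD (c : Cx x1 x2) : v65 x1 x2 = 0 := by
  have hc := c.hc
  have h3 := s3q x1 x2
  simp only [v0, v3, v5, v10, v11, v13, v14, v16, v17, v18, v19, v48, v49, v59, v60, v63, v65] at hc ⊢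
  push_cast at hc ⊢
  grind

theorem sD (c : Cx x1 x2) : v45 x1 x2 = v27 x1 x2 * v64 x1 x2 := by
  have h := s45 c
  rw [bD c, zero_add] at h
  exact h

theorem s119 (c : Cx x1 x2) : v119 x1 x2 = v120 x1 x2 + v27 x1 x2 * v125 x1 x2 := by
  have hA := s79 c
  have hd := sD c
  have hs := c.p113
  have hc : v68 x1 x2 ^ 2 = v67 x1 x2 := by
    rw [v68]; exact Real.sq_sqrt (le_of_lt c.p67)
  have hx : v66 x1 x2 - v68 x1 x2 = v45 x1 x2 * (v113 x1 x2)⁻¹ := by
    have g : v66 x1 x2 ^ 2 - v68 x1 x2 ^ 2 = v45 x1 x2 := by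
      rw [hc]; simp only [v0, v1, v5, v25, v26, v42, v43, v44, v45, v66, v67, v113]; push_cast; ring
    have g3 : v113 x1 x2 = v66 x1 x2 + v68 x1 x2 := by
      simp only [v0, v1, v5, v25, v26, v42, v43, v44, v45, v66, v67, v113]; try push_cast
      try ring
    have g2 : 0 < v66 x1 x2 + v68 x1 x2 := by rw [← g3]; exact hs
    rw [g3]; exact diff_of_sq g g2
  have hy : v112 x1 x2 * (v66 x1 x2 - v68 x1 x2) = v112 x1 x2 * (v45 x1 x2 * (v113 x1 x2)⁻¹) := congrArg (fun z => v112 x1 x2 * z) hx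
  have hK : v112 x1 x2 * (v113 x1 x2)⁻¹ * v45 x1 x2 = v112 x1 x2 * (v113 x1 x2)⁻¹ * (v27 x1 x2 * v64 x1 x2) := congrArg (fun z => v112 x1 x2 * (v113 x1 x2)⁻¹ * z) hd
  try simp only [v0, v1, v5, v25, v27, v44, v45, v48, v50, v64, v66, v111, v113, v116, v117, v118, v119, v120, v121, v122, v123, v124, v125] at hA
  try simp only [v0, v1, v5, v25, v27, v44, v45, v48, v50, v64, v66, v111, v113, v116, v117, v118, v119, v120, v121, v122, v123, v124, v125] at hy
  try simp only [v0, v1, v5, v25, v27, v44, v45, v48, v50, v64, v66, v111, v113, v116, v117, v118, v119, v120, v121, v122, v123, v124, v125] at hK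
  simp only [v0, v1, v5, v25, v27, v44, v45, v48, v50, v64, v66, v111, v113, v116, v117, v118, v119, v120, v121, v122, v123, v124, v125]
  (try push_cast at hA hy hK ⊢)
  first | linear_combination -(hA + hy + hK) | grind

theorem bE (c : Cx x1 x2) : v140 x1 x2 = 0 := by
  have hc := c.hc
  have h3 := s3q x1 x2
  have g0 : v2 x1 x2 ≠ 0 := s3ne x1 x2
  simp only [v0, v3, v9, v10, v11, v13, v14, v16, v17, v18, v19, v129, v132, v134, v136, v138, v140] at hc ⊢
  push_cast at hc ⊢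
  grind

theorem hE (c : Cx x1 x2) : v131 x1 x2 = v27 x1 x2 * v139 x1 x2 := by
  have h := s131 c
  rw [bE c, zero_add] at h
  exact h

theorem bS (c : Cx x1 x2) : v164 x1 x2 - v0 x1 x2 - v120 x1 x2 = 0 := by
  have hc := c.hc
  have h3 := s3q x1 x2
  have g0 := (c.p101).ne'
  have g1 := (c.p158).ne'
  simp only [v0, v3, v5, v10, v11, v13, v14, v16, v17, v18, v19, v22, v59, v69, v86, v89, v90, v92, v94, v99, v100, v101, v103, v107, v120, v144, v146, v147, v149, v150, v151, v153, v157, v158, v160, v164] at hc g0 g1 ⊢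
  push_cast at hc g0 g1 ⊢
  grind

theorem hS (c : Cx x1 x2) : v40 x1 x2 - v0 x1 x2 - v119 x1 x2 = v27 x1 x2 * v169 x1 x2 := by
  have a3 := s40 c
  have a2 := s119 c
  have b := bS c
  try simp only [v0, v1, v27, v111, v118, v119, v120, v124, v125, v168, v169] at a3
  try simp only [v0, v1, v27, v111, v118, v119, v120, v124, v125, v168, v169] at a2
  try simp only [v0, v1, v27, v111, v118, v119, v120, v124, v125, v168, v169] at b
  try simp only [v0, v1, v27, v111, v118, v119, v120, v124, v125, v168, v169]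
  (try push_cast at a3 a2 b ⊢)
  first | linear_combination a3 - a2 + b | grind

theorem bC (c : Cx x1 x2) : v141 x1 x2 * v164 x1 x2 - v170 x1 x2 * v0 x1 x2 = 0 := by
  have hc := c.hc
  have h3 := s3q x1 x2
  have g0 := (c.p158).ne'
  simp only [v0, v3, v10, v11, v13, v14, v16, v17, v18, v19, v22, v141, v144, v146, v147, v149, v150, v151, v153, v157, v158, v160, v164, v170] at hc g0 ⊢
  push_cast at hc g0 ⊢
  grind

theorem hC (c : Cx x1 x2) : v141 x1 x2 * v40 x1 x2 - v143 x1 x2 * v0 x1 x2 = v27 x1 x2 * v173 x1 x2 := by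
  have a2 : v141 x1 x2 * v40 x1 x2 = v141 x1 x2 * (v164 x1 x2 + v27 x1 x2 * v168 x1 x2) := congrArg (fun z => v141 x1 x2 * z) (s40 c)
  have a3 : v0 x1 x2 * v143 x1 x2 = v0 x1 x2 * (v170 x1 x2 + v27 x1 x2 * v58 x1 x2) := congrArg (fun z => v0 x1 x2 * z) (s143 c)
  have b := bC c
  try simp only [v0, v1, v2, v3, v27, v141, v143, v168, v170, v171, v172, v173] at a2
  try simp only [v0, v1, v2, v3, v27, v141, v143, v168, v170, v171, v172, v173] at a3
  try simp only [v0, v1, v2, v3, v27, v141, v143, v168, v170, v171, v172, v173] at b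
  simp only [v0, v1, v2, v3, v27, v141, v143, v168, v170, v171, v172, v173]
  (try push_cast at a2 a3 b ⊢)
  first | linear_combination a2 - a3 + b | grind

theorem hT (x1 x2 : ℝ) : v143 x1 x2 = v141 x1 x2 + v142 x1 x2 := by
  simp only [v2, v3, v26, v141, v142, v143]
  push_cast
  ring

theorem hG (c : Cx x1 x2) : v141 x1 x2 * v40 x1 x2 - (-v143 x1 x2) * (-v0 x1 x2) = v27 x1 x2 * v173 x1 x2 := by
  have b := hC c
  try simp only [v0, v1, v2, v3, v26, v27, v111, v118, v119, v124, v141, v142, v143, v168, v169, v173] at b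
  try simp only [v0, v1, v2, v3, v26, v27, v111, v118, v119, v124, v141, v142, v143, v168, v169, v173]
  (try push_cast at b ⊢)
  first | linear_combination b | grind

theorem core (c : Cx x1 x2) (hW : 0 ≤ v27 x1 x2) (hWQ : 0 ≤ v27 x1 x2 * v181 x1 x2) (h1 : 0 ≤ (-v143 x1 x2)) (h2 : 0 ≤ v141 x1 x2) (h3 : (-v143 x1 x2) + v141 x1 x2 ≤ Pool.Agent.StripNear.h0) :
    0 ≤ starn_v (v131 x1 x2) ((-v143 x1 x2)) (v141 x1 x2) (v40 x1 x2) ((-v0 x1 x2)) (v119 x1 x2) := by
  have hD : v40 x1 x2 + (-v0 x1 x2) - v119 x1 x2 = v27 x1 x2 * v169 x1 x2 := by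
    have b := hS c
    linear_combination b
  have k := starn_ge hW h1 h2 h3 (hE c) hD (hG c)
  have f0 : (-v143 x1 x2) = v180 x1 x2 := by
    simp only [v2, v3, v141, v143, v180]
    try (push_cast; ring)
  refine le_trans hWQ (le_trans (le_of_eq ?_) k)
  rw [v181]
  rw [f0]

end Pool.Agent.Strip051.LB.ChB03V1_mm_213
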